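import Mathlib
import Pool.Agent.Run7.h675.IV.Gen

/-!
Minimal nonelementary inclusive varieties of semigroups.

An inclusive variety not containing all commutative semigroups consists of periodic semigroups of
bounded index.  A minimal nonelementary inclusive variety is the class of the divisors of the
cyclic groups of order `p ^ n`, or the class of the divisors of the finite elementary abelian
`p`-groups, or it satisfies an identity `x ^ (k + 1) = x ^ (k + n + 1)` and for every prime `p` it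
omits some finite elementary abelian `p`-group.
-/

namespace Pool.Agent.Results.MP_f75ac6_al.MinimalDichotomy

open Pool.Agent.Results.MP_f75ac6_al.NoMaximal Run7.h675.IV

/-- `M` is a minimal nonelementary inclusive variety: it is a nonelementary inclusive variety and
every inclusive variety properly contained in it is elementary. -/
def IsMinimalNonelementary (M : SemigroupClass.{0}) : Prop :=
  IsInclusiveVariety M ∧ ¬ IsElementary M ∧
    ∀ L : SemigroupClass.{0}, IsInclusiveVariety L → ProperlyContained L M → IsElementary L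

lemma closed (M : SemigroupClass.{0}) (hM : IsInclusiveVariety M) (S T : Type) [Semigroup S]
    [Semigroup T] (A : Subsemigroup S) (f : A →ₙ* T) (hf : Function.Surjective f) (hS : M S) :
    M T := by
  obtain ⟨E, hE⟩ := hM
  exact (hE T).2 fun i hi => div_sat A f hf i ((hE S).1 hS i hi)

lemma cyc_dvd (M : SemigroupClass.{0}) (hM : IsInclusiveVariety M) (m d : ℕ) (h : d ∣ m)
    (hm : M (Multiplicative (ZMod m))) : M (Multiplicative (ZMod d)) := by
  let g : Multiplicative (ZMod m) →* Multiplicative (ZMod d) :=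
    AddMonoidHom.toMultiplicative (ZMod.castHom h (ZMod d)).toAddMonoidHom
  have hg : Function.Surjective g := ZMod.castHom_surjective h
  refine closed M hM _ _ ⊤ ((g : Multiplicative (ZMod m) →ₙ* Multiplicative (ZMod d)).comp
    (MulMemClass.subtype (⊤ : Subsemigroup (Multiplicative (ZMod m))))) ?_ hm
  intro t
  obtain ⟨a, ha⟩ := hg t
  exact ⟨⟨a, trivial⟩, ha⟩

lemma min_eq (M : SemigroupClass.{0}) (hM : IsMinimalNonelementary M) {ι : Type} [Nonempty ι]
    (G : ι → Type) [∀ i, Group (G i)] [∀ i, Finite (G i)] (hG : ∀ i, M (G i))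
    (hne : ¬ IsElementary (DivClass G)) (S : Type) [Semigroup S] : M S ↔ DivClass G S := by
  have hle : ∀ (T : Type) [Semigroup T], DivClass G T → M T := by
    rintro T _ ⟨i, A, f, hf⟩
    exact closed M hM.1 _ _ A f hf (hG i)
  refine ⟨fun h => ?_, hle S⟩
  by_contra hn
  exact hne (hM.2.2 _ (div_inclusive G) ⟨hle, S, _, h, hn⟩)

lemma pw_of_pow {T : Type} [Semigroup T] (x : T) (k m : ℕ)
    (h : (x : WithOne T) ^ (k + 1) = (x : WithOne T) ^ (k + 1 + m)) : pw x k = pw x (k + m) := by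
  apply WithOne.coe_inj.1
  rw [pw_coe, pw_coe, h]
  congr 1
  omega

theorem part_one (M : SemigroupClass.{0}) (hM : IsInclusiveVariety M) :
    (∀ (S : Type) [CommSemigroup S], M S) ∨
      ∃ k, ∀ (T : Type) [Semigroup T], M T → ∀ x : T, ∃ m, 1 ≤ m ∧
        (x : WithOne T) ^ (k + 1) = (x : WithOne T) ^ (k + 1 + m) := by
  by_cases h : ∀ (S : Type) [CommSemigroup S], M S
  · exact Or.inl h
  · right
    push Not at h
    obtain ⟨S, _, hS⟩ := h
    obtain ⟨k, hk, hT⟩ := dich M hM S hS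
    obtain ⟨j, rfl⟩ : ∃ j, k = j + 1 := ⟨k - 1, by omega⟩
    exact ⟨j, hT⟩

theorem part_two (M : SemigroupClass.{0}) (hM : IsMinimalNonelementary M) :
    (∃ p : ℕ, p.Prime ∧ ∀ (S : Type) [Semigroup S],
      M S ↔ DivClass (fun n : ℕ => Multiplicative (ZMod (p ^ n))) S) ∨
    (∃ p : ℕ, p.Prime ∧ ∀ (S : Type) [Semigroup S],
      M S ↔ DivClass (fun r : ℕ => Multiplicative (Fin r → ZMod p)) S) ∨
    ∃ k n, 1 ≤ n ∧ (∀ (T : Type) [Semigroup T], M T → ∀ x : T, pw x k = pw x (k + n)) ∧
      ∀ p : ℕ, p.Prime → ∃ r : ℕ, ¬ M (Multiplicative (Fin r → ZMod p)) := by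
  classical
  have hunb : ∀ p : ℕ, p.Prime → ∀ b, ∃ i, b < p ^ i := fun p hp b => ⟨b, b.lt_pow_self hp.one_lt⟩
  have hnz : ∀ p : ℕ, p.Prime → ∀ n, NeZero (p ^ n) := fun p hp n => ⟨pow_ne_zero _ hp.ne_zero⟩
  have hcomm : ¬ ∀ (S : Type) [CommSemigroup S], M S := by
    intro h
    have := hnz 2 Nat.prime_two
    have h1 := (min_eq M hM (fun n : ℕ => Multiplicative (ZMod (2 ^ n))) (fun n => h _)
      (ne_cyclic _ (hunb 2 Nat.prime_two)) (Multiplicative ℤ)).1 (h _)
    have h2 := div_finite _ _ h1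
    exact not_finite (Multiplicative ℤ)
  obtain ⟨k, hk⟩ := (part_one M hM.1).resolve_left hcomm
  by_cases h1 : ∃ p : ℕ, p.Prime ∧ ∀ n, M (Multiplicative (ZMod (p ^ n)))
  · obtain ⟨p, hp, hn⟩ := h1
    have := hnz p hp
    exact Or.inl ⟨p, hp, fun S _ => min_eq M hM _ hn (ne_cyclic _ (hunb p hp)) S⟩
  right
  push Not at h1
  have h2 : {p : ℕ | p.Prime ∧ M (Multiplicative (ZMod p))}.Finite := by
    by_contra hinf
    obtain ⟨p, hp, hpM⟩ := Set.Infinite.nonempty hinf
    have hinf2 : ({q : ℕ | q.Prime ∧ M (Multiplicative (ZMod q))} \ {p}).Infinite :=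
      Set.Infinite.sdiff hinf (Set.finite_singleton p)
    let ι := {q : ℕ // (q.Prime ∧ M (Multiplicative (ZMod q))) ∧ q ≠ p}
    have hub : ∀ b, ∃ i : ι, b < i.1 := by
      intro b
      obtain ⟨q, hq, hb⟩ := hinf2.exists_gt b
      exact ⟨⟨q, hq⟩, hb⟩
    have : Nonempty ι := ⟨(hub 0).choose⟩
    have : ∀ i : ι, NeZero i.1 := fun i => ⟨i.2.1.1.ne_zero⟩
    obtain ⟨q, A, f, hf⟩ := (min_eq M hM (fun i : ι => Multiplicative (ZMod i.1))
      (fun i => i.2.1.2) (ne_cyclic _ hub) (Multiplicative (ZMod p))).1 hpM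
    obtain ⟨a, ha⟩ := hf (Multiplicative.ofAdd 1)
    have h3 : pw a q.1 = a := by
      apply Subtype.ext
      have h4 := map_pw (MulMemClass.subtype A) a q.1
      change (MulMemClass.subtype A) (pw a q.1) = (a : Multiplicative (ZMod q.1))
      rw [h4, pw_group, pow_succ]
      change (a : Multiplicative (ZMod q.1)) ^ q.1 * (a : Multiplicative (ZMod q.1)) = a
      have h5 : (a : Multiplicative (ZMod q.1)) ^ q.1 = 1 := by
        have := pow_card_eq_one' (G := Multiplicative (ZMod q.1)) (x := (a : Multiplicative (ZMod q.1)))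
        rwa [show Nat.card (Multiplicative (ZMod q.1)) = q.1 from Nat.card_zmod q.1] at this
      rw [h5, one_mul]
    have h6 := map_pw f a q.1
    rw [h3, ha, pw_group, pow_succ] at h6
    have h7 : (Multiplicative.ofAdd (1 : ZMod p)) ^ q.1 = 1 := by
      have := h6.symm
      rwa [mul_eq_right] at this
    have h8 : ((q.1 : ℕ) : ZMod p) = 0 := by
      have : q.1 • (1 : ZMod p) = 0 := h7
      simpa using this
    have h9 := (ZMod.natCast_eq_zero_iff _ _).1 h8
    exact q.2.2 ((Nat.prime_dvd_prime_iff_eq hp q.2.1.1).1 h9).symm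
  by_cases h3 : ∃ p : ℕ, p.Prime ∧ ∀ r : ℕ, M (Multiplicative (Fin r → ZMod p))
  · obtain ⟨p, hp, hr⟩ := h3
    have : Fact p.Prime := ⟨hp⟩
    have : ∀ r : ℕ, Finite (Multiplicative (Fin r → ZMod p)) := fun r =>
      (inferInstance : Finite (Fin r → ZMod p))
    exact Or.inl ⟨p, hp, fun S _ => min_eq M hM _ hr (ne_elab p) S⟩
  right
  push Not at h3
  choose! e he using h1
  let n := ∏ p ∈ h2.toFinset, p ^ e p
  have hn0 : n ≠ 0 := by
    refine Finset.prod_ne_zero_iff.2 fun p hp => ?_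
    exact pow_ne_zero _ ((h2.mem_toFinset.1 hp).1.ne_zero)
  have hdvd : ∀ m, M (Multiplicative (ZMod m)) → m ∣ n := by
    intro m hm
    rw [Nat.dvd_iff_prime_pow_dvd_dvd]
    intro p j hp hj
    rcases Nat.eq_zero_or_pos j with h0 | h0
    · simp [h0]
    have hpm : p ∣ m := (dvd_pow_self p (by omega)).trans hj
    have hpP : p ∈ h2.toFinset := h2.mem_toFinset.2 ⟨hp, cyc_dvd M hM.1 m p hpm hm⟩
    have hje : j < e p := by
      by_contra hcon
      push Not at hcon
      exact he p hp (cyc_dvd M hM.1 m _ ((pow_dvd_pow p hcon).trans hj) hm)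
    exact (pow_dvd_pow p hje.le).trans (Finset.dvd_prod_of_mem (fun p => p ^ e p) hpP)
  refine ⟨k, n, Nat.pos_of_ne_zero hn0, ?_, h3⟩
  intro T _ hT x
  obtain ⟨m, hm, hmM, hx⟩ := per M hM.1 T hT x (k + 1) (by omega) (hk T hT x)
  obtain ⟨c, hc⟩ := hdvd m hmM
  apply pw_of_pow
  have := D_mul (x : WithOne T) (k + 1) m hx c
  rw [hc, mul_comm m c]
  exact this

/-- An inclusive variety contains all commutative semigroups or consists of periodic semigroups of
bounded index; and the three possibilities for a minimal nonelementary inclusive variety. -/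
theorem result :
    (∀ M : SemigroupClass.{0}, IsInclusiveVariety M →
      (∀ (S : Type) [CommSemigroup S], M S) ∨
      ∃ k, ∀ (T : Type) [Semigroup T], M T → ∀ x : T, ∃ m, 1 ≤ m ∧ pw x k = pw x (k + m)) ∧
    ∀ M : SemigroupClass.{0}, IsMinimalNonelementary M →
      (∃ p : ℕ, p.Prime ∧ ∀ (S : Type) [Semigroup S],
        M S ↔ DivClass (fun n : ℕ => Multiplicative (ZMod (p ^ n))) S) ∨
      (∃ p : ℕ, p.Prime ∧ ∀ (S : Type) [Semigroup S],
        M S ↔ DivClass (fun r : ℕ => Multiplicative (Fin r → ZMod p)) S) ∨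
      ∃ k n, 1 ≤ n ∧ (∀ (T : Type) [Semigroup T], M T → ∀ x : T, pw x k = pw x (k + n)) ∧
        ∀ p : ℕ, p.Prime → ∃ r : ℕ, ¬ M (Multiplicative (Fin r → ZMod p)) := by
  refine ⟨fun M hM => ?_, part_two⟩
  rcases part_one M hM with h | ⟨k, hk⟩
  · exact Or.inl h
  · refine Or.inr ⟨k, fun T _ hT x => ?_⟩
    obtain ⟨m, hm, hx⟩ := hk T hT x
    exact ⟨m, hm, pw_of_pow x k m hx⟩

end Pool.Agent.Results.MP_f75ac6_al.MinimalDichotomy
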