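import Mathlib
import Pool.Agent.Run7.h675.IV.TInc

/-!
Tarski groups and minimal nonelementary inclusive varieties of semigroups.

Let `G` be a Tarski group for the prime `p`: an infinite group in which all nontrivial proper
subgroups have order `p`.  The semigroups with at most one element, the groups of order `p` and the
groups isomorphic to `G` form a minimal nonelementary inclusive variety of semigroups, and
non-isomorphic Tarski groups give different classes.
-/

namespace Pool.Agent.Results.MP_f75ac6_al.TarskiGroups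

open Pool.Agent.Results.MP_f75ac6_al.NoMaximal Run7.h675.IV

/-- `M` is a minimal nonelementary inclusive variety: it is a nonelementary inclusive variety and
every inclusive variety properly contained in it is elementary. -/
def IsMinimalNonelementary (M : SemigroupClass.{0}) : Prop :=
  IsInclusiveVariety M ∧ ¬ IsElementary M ∧
    ∀ L : SemigroupClass.{0}, IsInclusiveVariety L → ProperlyContained L M → IsElementary L

/-- `G` is a Tarski group for the prime `p`: it is infinite and all its nontrivial proper subgroups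
have order `p`. -/
def IsTarskiGroup (p : ℕ) (G : Type) [Group G] : Prop :=
  p.Prime ∧ Infinite G ∧ ∀ H : Subgroup G, H ≠ ⊥ → H ≠ ⊤ → Nat.card H = p

/-- The class of all semigroups which have at most one element, or are isomorphic to the cyclic
group of order `p`, or are isomorphic to `G`. -/
def tarskiClass (p : ℕ) (G : Type) [Group G] : SemigroupClass.{0} := fun S _ =>
  Subsingleton S ∨ Nonempty (S ≃* Multiplicative (ZMod p)) ∨ Nonempty (S ≃* G)

lemma isTarski {p : ℕ} {G : Type} [Group G] (h : IsTarskiGroup p G) : IsTarski p G := by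
  obtain ⟨hp, hinf, hH⟩ := h
  refine ⟨hp, hinf, ?_, ?_⟩
  · intro x
    by_cases hx1 : x = 1
    · rw [hx1, one_pow]
    by_cases hz : Subgroup.zpowers x = ⊤
    · exfalso
      have hx : ¬ IsOfFinOrder x := by
        intro hf
        have h1 := finite_zpowers.2 hf
        rw [hz] at h1
        exact Set.infinite_univ h1
      apply hx
      by_cases h0 : Subgroup.zpowers (x ^ 2) = ⊥
      · exact isOfFinOrder_iff_pow_eq_one.2 ⟨2, by norm_num, Subgroup.zpowers_eq_bot.1 h0⟩
      by_cases h1 : Subgroup.zpowers (x ^ 2) = ⊤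
      · have hmem : x ∈ Subgroup.zpowers (x ^ 2) := by rw [h1]; trivial
        obtain ⟨k, hk⟩ := Subgroup.mem_zpowers_iff.1 hmem
        refine isOfFinOrder_iff_zpow_eq_one.2 ⟨2 * k - 1, by omega, ?_⟩
        rw [zpow_sub, zpow_mul, zpow_one]
        have h2 : (x ^ (2 : ℤ)) ^ k = x := by
          have : x ^ (2 : ℤ) = x ^ 2 := by norm_cast
          rw [this, hk]
        rw [h2, mul_inv_cancel]
      · have h2 := hH _ h0 h1
        have h3 : Finite (Subgroup.zpowers (x ^ 2)) :=
          Nat.finite_of_card_ne_zero (by rw [h2]; exact hp.ne_zero)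
        have h4 : ((Subgroup.zpowers (x ^ 2) : Subgroup G) : Set G).Finite := Set.toFinite _
        exact (finite_zpowers.1 h4).of_pow (by norm_num)
    · have h1 := hH _ (fun h0 => hx1 (Subgroup.zpowers_eq_bot.1 h0)) hz
      rw [Nat.card_zpowers] at h1
      rw [← h1, pow_orderOf_eq_one]
  · intro H hne
    by_cases h0 : H = ⊥
    · left
      rw [h0, Subgroup.card_bot]
    · exact Or.inr (hH H h0 hne)

lemma closed (M : SemigroupClass.{0}) (hM : IsInclusiveVariety M) (S T : Type) [Semigroup S]
    [Semigroup T] (A : Subsemigroup S) (f : A →ₙ* T) (hf : Function.Surjective f) (hS : M S) :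
    M T := by
  obtain ⟨E, hE⟩ := hM
  exact (hE T).2 fun i hi => div_sat A f hf i ((hE S).1 hS i hi)

lemma closed_iso (M : SemigroupClass.{0}) (hM : IsInclusiveVariety M) (S T : Type) [Semigroup S]
    [Semigroup T] (e : S ≃* T) (hS : M S) : M T :=
  closed M hM S T ⊤ ((e : S →ₙ* T).comp (MulMemClass.subtype (⊤ : Subsemigroup S)))
    (fun t => ⟨⟨e.symm t, trivial⟩, e.apply_symm_apply t⟩) hS

lemma closed_div (M : SemigroupClass.{0}) (hM : IsInclusiveVariety M) (G : Type) [Group G]
    (T : Type) [Semigroup T] (h : DivClass (fun _ : Unit => G) T) (hG : M G) : M T := by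
  obtain ⟨_, A, f, hf⟩ := h
  exact closed M hM G T A f hf hG

lemma div_iso (G : Type) [Group G] (T : Type) [Semigroup T] (e : G ≃* T) :
    DivClass (fun _ : Unit => G) T :=
  ⟨(), ⊤, (e : G →ₙ* T).comp (MulMemClass.subtype (⊤ : Subsemigroup G)),
    fun t => ⟨⟨e.symm t, trivial⟩, e.apply_symm_apply t⟩⟩

lemma div_subsingleton (G : Type) [Group G] (T : Type) [Semigroup T] (h : Subsingleton T) :
    DivClass (fun _ : Unit => G) T := by
  rcases isEmpty_or_nonempty T with hT | ⟨⟨t⟩⟩
  · exact empty_div G T hT
  · exact ⟨(), ⊤, ⟨fun _ => t, fun _ _ => Subsingleton.elim _ _⟩,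
      fun s => ⟨⟨1, trivial⟩, Subsingleton.elim _ _⟩⟩

lemma quotient_cases (G : Type) [Group G] (hs : ∀ N : Subgroup G, N.Normal → N = ⊥ ∨ N = ⊤)
    (T : Type) [Semigroup T] (A : Subsemigroup G) (hA : ∀ x, x ∈ A) (f : A →ₙ* T)
    (hf : Function.Surjective f) : Subsingleton T ∨ Nonempty (G ≃* T) := by
  let g : G →ₙ* T := ⟨fun x => f ⟨x, hA x⟩, fun x y => by
    rw [← map_mul]
    rfl⟩
  have hg : Function.Surjective g := by
    intro t
    obtain ⟨a, ha⟩ := hf t
    exact ⟨a.1, ha⟩
  rcases inj_or_const hs g with h | h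
  · exact Or.inr ⟨MulEquiv.ofBijective g ⟨h, hg⟩⟩
  · left
    constructor
    intro s t
    obtain ⟨a, rfl⟩ := hg s
    obtain ⟨b, rfl⟩ := hg t
    rw [h a, h b]

lemma subsingleton_of (G : Type) [Group G] (T : Type) [Semigroup T] (A : Subsemigroup G)
    (hA : ∀ x y, x ∈ A → y ∈ A → x = y) (f : A →ₙ* T) (hf : Function.Surjective f) :
    Subsingleton T := by
  constructor
  intro s t
  obtain ⟨a, rfl⟩ := hf s
  obtain ⟨b, rfl⟩ := hf t
  rw [Subtype.ext (hA _ _ a.2 b.2)]

lemma cp_exponent (p : ℕ) [hp : Fact p.Prime] (x : Multiplicative (ZMod p)) : x ^ p = 1 := by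
  have := pow_card_eq_one' (G := Multiplicative (ZMod p)) (x := x)
  rwa [show Nat.card (Multiplicative (ZMod p)) = p from Nat.card_zmod p] at this

lemma cp_simple (p : ℕ) [hp : Fact p.Prime] (N : Subgroup (Multiplicative (ZMod p))) :
    N = ⊥ ∨ N = ⊤ := by
  have : IsSimpleGroup (Multiplicative (ZMod p)) :=
    isSimpleGroup_of_prime_card (p := p) (Nat.card_zmod p)
  have hN : N.Normal := inferInstance
  exact hN.eq_bot_or_eq_top

lemma div_cases_C (p : ℕ) [hp : Fact p.Prime] (T : Type) [Semigroup T]
    (h : DivClass (fun _ : Unit => Multiplicative (ZMod p)) T) :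
    Subsingleton T ∨ Nonempty (Multiplicative (ZMod p) ≃* T) := by
  obtain ⟨_, A, f, hf⟩ := h
  by_cases hA : ∃ a, a ∈ A
  · rcases cp_simple p (toSub p hp.out.two_le (cp_exponent p) A hA) with h | h
    · left
      have h1 : ∀ x, x ∈ A → x = 1 := by
        intro x hx
        have : x ∈ toSub p hp.out.two_le (cp_exponent p) A hA := hx
        rw [h] at this
        exact Subgroup.mem_bot.1 this
      exact subsingleton_of _ T A (fun x y hx hy => by rw [h1 x hx, h1 y hy]) f hf
    · refine quotient_cases _ (fun N _ => cp_simple p N) T A (fun x => ?_) f hf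
      have : x ∈ toSub p hp.out.two_le (cp_exponent p) A hA := by rw [h]; trivial
      exact this
  · push Not at hA
    exact Or.inl (subsingleton_of _ T A (fun x y hx _ => absurd hx (hA x)) f hf)

lemma div_cases_G {p : ℕ} {G : Type} [Group G] (hG : IsTarski p G) (T : Type) [Semigroup T]
    (h : DivClass (fun _ : Unit => G) T) :
    Subsingleton T ∨ Nonempty (Multiplicative (ZMod p) ≃* T) ∨ Nonempty (G ≃* T) := by
  have hp : Fact p.Prime := ⟨hG.prime⟩
  obtain ⟨_, A, f, hf⟩ := h
  by_cases hA : ∃ a, a ∈ A
  · by_cases htop : toSub p hp.out.two_le hG.exponent A hA = ⊤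
    · rcases quotient_cases G (tsimple hG) T A (fun x => by
        have : x ∈ toSub p hp.out.two_le hG.exponent A hA := by rw [htop]; trivial
        exact this) f hf with h | h
      · exact Or.inl h
      · exact Or.inr (Or.inr h)
    · rcases hG.proper _ htop with h1 | h1
      · left
        have h2 := (Nat.card_eq_one_iff_unique.1 h1).1
        refine subsingleton_of _ T A (fun x y hx hy => ?_) f hf
        exact congrArg Subtype.val (Subsingleton.elim
          (⟨x, hx⟩ : toSub p hp.out.two_le hG.exponent A hA) ⟨y, hy⟩)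
      · have e : Multiplicative (ZMod p) ≃* toSub p hp.out.two_le hG.exponent A hA :=
          mulEquivOfPrimeCardEq (p := p) (Nat.card_zmod p) h1
        have hd : DivClass (fun _ : Unit => Multiplicative (ZMod p)) T := by
          refine ⟨(), ⊤, ⟨fun x => f ⟨(e x.1).1, (e x.1).2⟩, fun x y => ?_⟩, fun t => ?_⟩
          · rw [← map_mul]
            congr 1
            apply Subtype.ext
            change (e (x.1 * y.1)).1 = (e x.1).1 * (e y.1).1
            rw [map_mul]
            rfl
          · obtain ⟨a, ha⟩ := hf t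
            refine ⟨⟨e.symm ⟨a.1, a.2⟩, trivial⟩, ?_⟩
            change f ⟨(e (e.symm ⟨a.1, a.2⟩)).1, _⟩ = t
            rw [← ha]
            congr 1
            apply Subtype.ext
            simp
        rcases div_cases_C p T hd with h2 | h2
        · exact Or.inl h2
        · exact Or.inr (Or.inl h2)
  · push Not at hA
    exact Or.inl (subsingleton_of _ T A (fun x y hx _ => absurd hx (hA x)) f hf)

lemma class_iff {p : ℕ} {G : Type} [Group G] (hG : IsTarski p G) (T : Type) [Semigroup T] :
    tarskiClass p G T ↔ DivClass (fun _ : Unit => G) T := by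
  have hp : Fact p.Prime := ⟨hG.prime⟩
  constructor
  · rintro (h | ⟨⟨e⟩⟩ | ⟨⟨e⟩⟩)
    · exact div_subsingleton G T h
    · have := hG.infinite
      obtain ⟨x, hx⟩ := exists_ne (1 : G)
      have hc : Nat.card (Subgroup.zpowers x) = p := by
        rcases hG.proper _ (ttop hG _ (tzp hG x)) with h1 | h1
        · exact absurd (Subgroup.zpowers_eq_bot.1 (Subgroup.eq_bot_of_card_eq _ h1)) hx
        · exact h1
      have e2 : Subgroup.zpowers x ≃* Multiplicative (ZMod p) :=
        mulEquivOfPrimeCardEq (p := p) hc (Nat.card_zmod p)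
      refine ⟨(), (Subgroup.zpowers x).toSubmonoid.toSubsemigroup,
        ⟨fun a => e.symm (e2 ⟨a.1, a.2⟩), fun a b => ?_⟩, fun t => ?_⟩
      · rw [← map_mul, ← map_mul]
        rfl
      · refine ⟨⟨(e2.symm (e t)).1, (e2.symm (e t)).2⟩, ?_⟩
        change e.symm (e2 (e2.symm (e t))) = t
        simp
    · exact div_iso G T e.symm
  · intro h
    rcases div_cases_G hG T h with h | ⟨⟨e⟩⟩ | ⟨⟨e⟩⟩
    · exact Or.inl h
    · exact Or.inr (Or.inl ⟨e.symm⟩)
    · exact Or.inr (Or.inr ⟨e.symm⟩)

lemma sub_elem (p : ℕ) [hp : Fact p.Prime] (L : SemigroupClass.{0}) (hL : IsInclusiveVariety L)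
    (hsub : ∀ (T : Type) [Semigroup T], L T →
      DivClass (fun _ : Unit => Multiplicative (ZMod p)) T) : IsElementary L := by
  by_cases hC : L (Multiplicative (ZMod p))
  · refine ⟨{e | e.set.Finite ∧ Satisfies (Multiplicative (ZMod p)) e}, fun e he => he.1, ?_⟩
    intro T _
    constructor
    · intro hT e he
      obtain ⟨_, A, f, hf⟩ := hsub T hT
      exact div_sat A f hf e he.2
    · intro h
      refine closed_div L hL (Multiplicative (ZMod p)) T ?_ hC
      refine (c_defined hp.out.two_le (Multiplicative (ZMod p)) (cp_exponent p) T).2 ?_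
      intro e he
      exact compactness (Multiplicative (ZMod p)) T (fun e' h1 h2 => h e' ⟨h1, h2⟩) e he
  · refine ⟨{⟨FreeSemigroup.of 0, {FreeSemigroup.of 1}, ⟨_, rfl⟩⟩}, ?_, ?_⟩
    · intro e he
      rw [Set.mem_singleton_iff] at he
      rw [he]
      exact Set.finite_singleton _
    intro T _
    constructor
    · intro hT e he φ
      rw [Set.mem_singleton_iff] at he
      rcases div_cases_C p T (hsub T hT) with h | ⟨⟨e'⟩⟩
      · obtain ⟨v, hv⟩ := e.nonempty
        exact ⟨v, hv, Subsingleton.elim _ _⟩
      · exact absurd (closed_iso L hL T _ e'.symm hT) hC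
    · intro h
      have hss : Subsingleton T := by
        constructor
        intro a b
        obtain ⟨v, hv, e⟩ := h _ rfl (FreeSemigroup.lift fun n => if n = 0 then a else b)
        have hv' : v = FreeSemigroup.of 1 := hv
        subst hv'
        simpa using e
      obtain ⟨E, hE⟩ := hL
      refine (hE T).2 fun e _ φ => ?_
      obtain ⟨v, hv⟩ := e.nonempty
      exact ⟨v, hv, Subsingleton.elim _ _⟩

theorem minimal {p : ℕ} {G : Type} [Group G] (hG : IsTarski p G) :
    IsMinimalNonelementary (tarskiClass p G) := by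
  have hp : Fact p.Prime := ⟨hG.prime⟩
  have := hG.infinite
  have := tcountable hG
  refine ⟨⟨_, fun S _ => (class_iff hG S).trans (t_defined hG S)⟩, ?_, ?_⟩
  · rintro ⟨E, hE, hd⟩
    exact ne_single G ⟨E, hE, fun S _ => (class_iff hG S).symm.trans (hd S)⟩
  · rintro L hL ⟨hle, S, iS, hS, hnS⟩
    have hLG : ¬ L G := fun h => hnS (closed_div L hL G S ((class_iff hG S).1 hS) h)
    apply sub_elem p L hL
    intro T _ hT
    rcases hle T hT with h | ⟨⟨e⟩⟩ | ⟨⟨e⟩⟩
    · exact div_subsingleton _ T h
    · exact div_iso _ T e.symm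
    · exact absurd (closed_iso L hL T G e hT) hLG

lemma prime_eq {p q : ℕ} {G H : Type} [Group G] [Group H] (hG : IsTarski p G)
    (hH : IsTarski q H) (e : G ≃* H) : p = q := by
  have := hG.infinite
  obtain ⟨x, hx⟩ := exists_ne (1 : G)
  have h1 : x ^ q = 1 := e.injective (by rw [map_pow, hH.exponent, map_one])
  have h2 := orderOf_dvd_of_pow_eq_one h1
  have h3 := orderOf_dvd_of_pow_eq_one (hG.exponent x)
  have h4 : orderOf x ≠ 1 := fun h => hx (orderOf_eq_one_iff.1 h)
  rcases (Nat.dvd_prime hG.prime).1 h3 with h5 | h5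
  · exact absurd h5 h4
  rcases (Nat.dvd_prime hH.prime).1 h2 with h6 | h6
  · exact absurd h6 h4
  rw [← h5, h6]

/-- For a Tarski group `G` for the prime `p` the semigroups with at most one element, the groups of
order `p` and the groups isomorphic to `G` form a minimal nonelementary inclusive variety; the
classes of two Tarski groups agree exactly when the groups are isomorphic. -/
theorem result (p : ℕ) (G : Type) [Group G] (hG : IsTarskiGroup p G) :
    IsMinimalNonelementary (tarskiClass p G) ∧
    ∀ (q : ℕ) (H : Type) [Group H], IsTarskiGroup q H →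
      ((∀ (S : Type) [Semigroup S], tarskiClass p G S ↔ tarskiClass q H S) ↔
        Nonempty (G ≃* H)) := by
  refine ⟨minimal (isTarski hG), ?_⟩
  intro q H _ hH
  have hG' := isTarski hG
  have hH' := isTarski hH
  constructor
  · intro h
    have := hG'.infinite
    rcases (h G).1 (Or.inr (Or.inr ⟨MulEquiv.refl G⟩)) with h1 | ⟨⟨e⟩⟩ | h1
    · exact absurd h1 (not_subsingleton G)
    · have hq : Fact q.Prime := ⟨hH'.prime⟩
      have : Finite G := Finite.of_equiv _ e.toEquiv.symm
      exact (not_finite G).elim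
    · exact h1
  · rintro ⟨e⟩ S _
    have hpq := prime_eq hG' hH' e
    subst hpq
    constructor
    · rintro (h | h | ⟨⟨f⟩⟩)
      · exact Or.inl h
      · exact Or.inr (Or.inl h)
      · exact Or.inr (Or.inr ⟨f.trans e⟩)
    · rintro (h | h | ⟨⟨f⟩⟩)
      · exact Or.inl h
      · exact Or.inr (Or.inl h)
      · exact Or.inr (Or.inr ⟨f.trans e.symm⟩)

end Pool.Agent.Results.MP_f75ac6_al.TarskiGroups
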